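import Mathlib
import Pool.Agent.H43.AllLengths
import Pool.Graph.R_pool_sql_team_seeded_620a6dc7.Results.MP_71830d_co.Separation
import Pool.Graph.R_pool_sql_team_seeded_620a6dc7.Results.MP_71830d_co.SemiSatThree

/-!
# The asymptotic separation of saturation and semi-saturation of the square in the hypercube

`s-sat(Q_n, Q_2) / 2 ^ n` tends to `3`, and so
`limsup s-sat(Q_n, Q_2) / 2 ^ n = 3 < 3.1 ≤ liminf sat(Q_n, Q_2) / 2 ^ n`.

The two lower bounds are those of the library. New here is the upper bound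
`s-sat(Q_n, Q_2) ≤ (3 + o(1)) 2 ^ n` for all `n`: all edges of `Q_n` with an end in
`(C₁ × Q_m) ∪ (Q_k × C₂)`, `n = k + m`, where `C₁`, `C₂` are binary covering codes of radius one and
lengths `k`, `m`. Codes of density `1 + o(1)` for all lengths (Kabatyanskii and Panchenko) are
constructed from scratch: Hamming syndromes of binary blocks, mapped onto a field of `3 ^ b < 2 ^ s`
elements and combined by a Hamming code over that field, the `(u, u + v)` doubling, and free
coordinates.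
-/

set_option autoImplicit false

open Finset Filter Topology

namespace Pool.Agent.Results.MP_71830d_co.AsymptoticSeparation

/-- The hypercube graph `Q_n` on `{0,1}^n`: two vertices are adjacent exactly when they differ in
one coordinate. -/
def Q (n : ℕ) : SimpleGraph (Fin n → Bool) where
  Adj x y := hammingDist x y = 1
  symm := ⟨fun x y h => by rw [hammingDist_comm]; exact h⟩
  loopless := ⟨fun x h => by simp at h⟩

/-- `G` is a `(Q_n, Q_2)`-semi-saturated graph: a subgraph of `Q_n` such that for every edge `xy` of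
`Q_n` which is not in `G` there is a 4-cycle `x y z w` whose edges other than `xy` are in `G`. -/
def SemiSat {n : ℕ} (G : SimpleGraph (Fin n → Bool)) : Prop :=
  G ≤ Q n ∧ ∀ x y, (Q n).Adj x y → ¬ G.Adj x y →
    ∃ z w, x ≠ z ∧ y ≠ w ∧ G.Adj y z ∧ G.Adj z w ∧ G.Adj w x

/-- The number `s-sat(Q_n, Q_2)`: the least number of edges of a `(Q_n, Q_2)`-semi-saturated graph. -/
noncomputable def sSat (n : ℕ) : ℕ :=
  sInf {m : ℕ | ∃ G : SimpleGraph (Fin n → Bool), SemiSat G ∧ G.edgeSet.ncard = m}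

/-- `H` contains a 4-cycle (a copy of `Q_2`). -/
def HasC4 {n : ℕ} (H : SimpleGraph (Fin n → Bool)) : Prop :=
  ∃ x y z w, x ≠ z ∧ y ≠ w ∧ H.Adj x y ∧ H.Adj y z ∧ H.Adj z w ∧ H.Adj w x

/-- `G` is `(Q_n, Q_2)`-saturated: a subgraph of `Q_n` without 4-cycle such that the addition of any
edge of `Q_n` which is not in `G` creates a 4-cycle. -/
def Sat {n : ℕ} (G : SimpleGraph (Fin n → Bool)) : Prop :=
  G ≤ Q n ∧ ¬ HasC4 G ∧ ∀ x y, (Q n).Adj x y → ¬ G.Adj x y → HasC4 (G ⊔ SimpleGraph.edge x y)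

/-- The number `sat(Q_n, Q_2)`: the least number of edges of a `(Q_n, Q_2)`-saturated graph. -/
noncomputable def satNum (n : ℕ) : ℕ :=
  sInf {m : ℕ | ∃ G : SimpleGraph (Fin n → Bool), Sat G ∧ G.edgeSet.ncard = m}

lemma satNum_eq (n : ℕ) : satNum n = Separation.satNum n := rfl

lemma sSat_eq (n : ℕ) : sSat n = Separation.sSat n := rfl

lemma sSat_eq' (n : ℕ) : sSat n = SemiSatThree.sSat n := rfl

open Separation (flp flp_flp flp_self flp_of_ne flp_comm flp_adj adj_flp flp_inj)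

/-- The construction from two covering codes. -/
lemma construct {n1 n2 : ℕ} (C1 : Finset (Fin n1 → Bool)) (C2 : Finset (Fin n2 → Bool))
    (h1 : Pool.Agent.H43.Cover.Covers (C1 : Set (Fin n1 → Bool)))
    (h2 : Pool.Agent.H43.Cover.Covers (C2 : Set (Fin n2 → Bool))) :
    ∃ G : SimpleGraph (Fin (n1 + n2) → Bool), Separation.SemiSat G ∧
      2 * G.edgeSet.ncard ≤ (2 * n1 + n2) * (C1.card * 2 ^ n2) +
        (2 * n2 + n1) * (C2.card * 2 ^ n1) := by
  classical
  let p1 : (Fin (n1 + n2) → Bool) → (Fin n1 → Bool) := fun x i => x (Fin.castAdd n2 i)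
  let p2 : (Fin (n1 + n2) → Bool) → (Fin n2 → Bool) := fun x i => x (Fin.natAdd n1 i)
  have p1l : ∀ x i, p1 (flp x (Fin.castAdd n2 i)) = Pool.Agent.H43.Cover.flip (p1 x) i := by
    intro x i
    funext j
    by_cases hj : j = i
    · subst hj
      rw [Pool.Agent.H43.Cover.flip_self]
      exact flp_self _ _
    · rw [Pool.Agent.H43.Cover.flip_of_ne _ hj]
      exact flp_of_ne _ (fun h => hj (Fin.castAdd_injective _ _ h))
  have p1r : ∀ x i, p1 (flp x (Fin.natAdd n1 i)) = p1 x := by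
    intro x i
    funext j
    refine flp_of_ne _ ?_
    intro h
    have := congrArg Fin.val h
    simp only [Fin.val_castAdd, Fin.val_natAdd] at this
    omega
  have p2l : ∀ x i, p2 (flp x (Fin.castAdd n2 i)) = p2 x := by
    intro x i
    funext j
    refine flp_of_ne _ ?_
    intro h
    have := congrArg Fin.val h
    simp only [Fin.val_castAdd, Fin.val_natAdd] at this
    omega
  have p2r : ∀ x i, p2 (flp x (Fin.natAdd n1 i)) = Pool.Agent.H43.Cover.flip (p2 x) i := by
    intro x i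
    funext j
    by_cases hj : j = i
    · subst hj
      rw [Pool.Agent.H43.Cover.flip_self]
      exact flp_self _ _
    · rw [Pool.Agent.H43.Cover.flip_of_ne _ hj]
      exact flp_of_ne _ (fun h => hj (Fin.natAdd_injective _ _ h))
  let G : SimpleGraph (Fin (n1 + n2) → Bool) :=
    { Adj := fun u v => (Separation.Q (n1 + n2)).Adj u v ∧
        ((p1 u ∈ C1 ∨ p2 u ∈ C2) ∨ (p1 v ∈ C1 ∨ p2 v ∈ C2))
      symm := ⟨fun u v h => ⟨h.1.symm, h.2.symm⟩⟩
      loopless := ⟨fun u h => (Separation.Q (n1 + n2)).loopless.irrefl u h.1⟩ }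
  have hGQ : G ≤ Separation.Q (n1 + n2) := fun u v h => h.1
  refine ⟨G, ⟨hGQ, ?_⟩, ?_⟩
  · intro x y hxy hnot
    obtain ⟨i, rfl⟩ := adj_flp hxy
    have hx : ¬ (p1 x ∈ C1 ∨ p2 x ∈ C2) := fun h => hnot ⟨hxy, Or.inl h⟩
    rw [not_or] at hx
    obtain ⟨j, hij, hj1, hj2⟩ : ∃ j, i ≠ j ∧ (p1 (flp x j) ∈ C1 ∨ p2 (flp x j) ∈ C2) ∧
        (p1 (flp (flp x i) j) ∈ C1 ∨ p2 (flp (flp x i) j) ∈ C2) := by
      induction i using Fin.addCases with
      | left i =>
        obtain ⟨j, hj⟩ := (h2 (p2 x)).resolve_left hx.2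
        refine ⟨Fin.natAdd n1 j, ?_, ?_, ?_⟩
        · intro h
          have := congrArg Fin.val h
          simp only [Fin.val_castAdd, Fin.val_natAdd] at this
          omega
        · right; rw [p2r]; exact hj
        · right; rw [p2r, p2l]; exact hj
      | right i =>
        obtain ⟨j, hj⟩ := (h1 (p1 x)).resolve_left hx.1
        refine ⟨Fin.castAdd n2 j, ?_, ?_, ?_⟩
        · intro h
          have := congrArg Fin.val h
          simp only [Fin.val_castAdd, Fin.val_natAdd] at this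
          omega
        · left; rw [p1l]; exact hj
        · left; rw [p1l, p1r]; exact hj
    refine ⟨flp (flp x i) j, flp x j, ?_, ?_, ?_, ?_, ?_⟩
    · intro hc
      have h1 := congrFun hc i
      rw [flp_of_ne _ hij, flp_self] at h1
      revert h1
      cases x i <;> simp
    · intro hc
      exact hij (flp_inj x hc)
    · exact ⟨flp_adj _ _, Or.inr hj2⟩
    · refine ⟨?_, Or.inl hj2⟩
      rw [flp_comm]
      exact (flp_adj _ _).symm
    · exact ⟨(flp_adj _ _).symm, Or.inl hj1⟩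
  · have hsum := Separation.sum_deg hGQ
    let c1 : (Fin (n1 + n2) → Bool) → ℕ := fun v => if p1 v ∈ C1 then 1 else 0
    let c2 : (Fin (n1 + n2) → Bool) → ℕ := fun v => if p2 v ∈ C2 then 1 else 0
    have hdeg : ∀ v, Separation.deg (fun u i => G.Adj u (flp u i)) v ≤
        (∑ i : Fin n1, (c1 v + c1 (flp v (Fin.castAdd n2 i)) + c2 v)) +
        (∑ i : Fin n2, (c2 v + c2 (flp v (Fin.natAdd n1 i)) + c1 v)) := by
      intro v
      unfold Separation.deg
      rw [card_filter, Fin.sum_univ_add]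
      refine add_le_add (Finset.sum_le_sum fun i _ => ?_) (Finset.sum_le_sum fun i _ => ?_)
      · split_ifs with h
        · have h3 := h.2
          rw [p2l] at h3
          simp only [c1, c2]
          by_cases e1 : p1 v ∈ C1
          · rw [if_pos e1]; omega
          · by_cases e2 : p2 v ∈ C2
            · rw [if_pos e2]; omega
            · have e3 : p1 (flp v (Fin.castAdd n2 i)) ∈ C1 := by tauto
              rw [if_pos e3]; omega
        · exact Nat.zero_le _
      · split_ifs with h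
        · have h3 := h.2
          rw [p1r] at h3
          simp only [c1, c2]
          by_cases e1 : p1 v ∈ C1
          · rw [if_pos e1]; omega
          · by_cases e2 : p2 v ∈ C2
            · rw [if_pos e2]; omega
            · have e3 : p2 (flp v (Fin.natAdd n1 i)) ∈ C2 := by tauto
              rw [if_pos e3]; omega
        · exact Nat.zero_le _
    have hle := Finset.sum_le_sum (s := univ) (fun v _ => hdeg v)
    rw [hsum] at hle
    let f1 : (Fin n1 → Bool) → ℕ := fun a => if a ∈ C1 then 1 else 0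
    let f2 : (Fin n2 → Bool) → ℕ := fun a => if a ∈ C2 then 1 else 0
    have hf1 : ∑ a, f1 a = C1.card := by
      simp only [f1, Finset.sum_ite_mem, Finset.univ_inter, Finset.sum_const, smul_eq_mul, mul_one]
    have hf2 : ∑ a, f2 a = C2.card := by
      simp only [f2, Finset.sum_ite_mem, Finset.univ_inter, Finset.sum_const, smul_eq_mul, mul_one]
    have hc1 : ∑ v, c1 v = C1.card * 2 ^ n2 := by
      have e : ∑ v, c1 v = ∑ q : (Fin n1 → Bool) × (Fin n2 → Bool), f1 q.1 := by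
        apply Fintype.sum_equiv (Fin.appendEquiv n1 n2).symm
        intro v
        rfl
      rw [e, Fintype.sum_prod_type]
      simp only [Finset.sum_const, Finset.card_univ, smul_eq_mul]
      rw [← Finset.mul_sum, hf1]
      simp [mul_comm]
    have hc2 : ∑ v, c2 v = C2.card * 2 ^ n1 := by
      have e : ∑ v, c2 v = ∑ q : (Fin n1 → Bool) × (Fin n2 → Bool), f2 q.2 := by
        apply Fintype.sum_equiv (Fin.appendEquiv n1 n2).symm
        intro v
        rfl
      rw [e, Fintype.sum_prod_type]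
      simp only [hf2, Finset.sum_const, Finset.card_univ, smul_eq_mul]
      simp [mul_comm]
    have hs1 : ∀ i, ∑ v, c1 (flp v i) = ∑ v, c1 v := fun i =>
      Separation.sum_flip flp_flp i c1
    have hs2 : ∀ i, ∑ v, c2 (flp v i) = ∑ v, c2 v := fun i =>
      Separation.sum_flip flp_flp i c2
    rw [Finset.sum_add_distrib, Finset.sum_comm,
      Finset.sum_comm (f := fun v (i : Fin n2) => c2 v + c2 (flp v (Fin.natAdd n1 i)) + c1 v)] at hle
    simp only [Finset.sum_add_distrib, hs1, hs2, hc1, hc2, Finset.sum_const, Finset.card_univ,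
      Fintype.card_fin, smul_eq_mul] at hle
    refine hle.trans (le_of_eq ?_)
    ring

/-- `s-sat(Q_n, Q_2) ≤ (3 + o(1)) 2 ^ n` for all `n`. -/
lemma sSat_upper (ε : ℝ) (hε : 0 < ε) : ∃ n₀ : ℕ, ∀ n ≥ n₀, (sSat n : ℝ) ≤ (3 + ε) * 2 ^ n := by
  obtain ⟨m₀, hm₀⟩ := Pool.Agent.H43.Cover.good_all (ε / 3) (by positivity)
  refine ⟨2 * m₀ + 2, fun n hn => ?_⟩
  obtain ⟨n1, n2, rfl, hn1, hn12, hn21⟩ : ∃ n1 n2, n = n1 + n2 ∧ m₀ ≤ n1 ∧ n1 ≤ n2 ∧ n2 ≤ n1 + 1 :=
    ⟨n / 2, n - n / 2, by omega, by omega, by omega, by omega⟩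
  obtain ⟨C1, h1, k1⟩ := hm₀ n1 hn1
  obtain ⟨C2, h2, k2⟩ := hm₀ n2 (hn1.trans hn12)
  obtain ⟨G, hG, hcard⟩ := construct C1 C2 h1 h2
  have hle : sSat (n1 + n2) ≤ G.edgeSet.ncard := Nat.sInf_le ⟨G, hG, rfl⟩
  have hle' : (sSat (n1 + n2) : ℝ) ≤ G.edgeSet.ncard := by exact_mod_cast hle
  refine hle'.trans ?_
  have hcard' : 2 * (G.edgeSet.ncard : ℝ) ≤ (2 * n1 + n2) * (C1.card * 2 ^ n2) +
        (2 * n2 + n1) * (C2.card * 2 ^ n1) := by exact_mod_cast hcard
  have h21 : (n2 : ℝ) ≤ n1 + 1 := by exact_mod_cast hn21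
  have h12 : (n1 : ℝ) ≤ n2 := by exact_mod_cast hn12
  have a1 : (2 * (n1 : ℝ) + n2) * (C1.card * 2 ^ n2) ≤ 3 * ((1 + ε / 3) * 2 ^ (n1 + n2)) := by
    calc (2 * (n1 : ℝ) + n2) * (C1.card * 2 ^ n2) ≤ (3 * ((n1 : ℝ) + 1)) * (C1.card * 2 ^ n2) := by
          gcongr; linarith
      _ = 3 * ((((n1 : ℝ) + 1) * C1.card) * 2 ^ n2) := by ring
      _ ≤ 3 * (((1 + ε / 3) * 2 ^ n1) * 2 ^ n2) := by gcongr
      _ = 3 * ((1 + ε / 3) * 2 ^ (n1 + n2)) := by rw [pow_add]; ring
  have a2 : (2 * (n2 : ℝ) + n1) * (C2.card * 2 ^ n1) ≤ 3 * ((1 + ε / 3) * 2 ^ (n1 + n2)) := by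
    calc (2 * (n2 : ℝ) + n1) * (C2.card * 2 ^ n1) ≤ (3 * ((n2 : ℝ) + 1)) * (C2.card * 2 ^ n1) := by
          gcongr; linarith
      _ = 3 * ((((n2 : ℝ) + 1) * C2.card) * 2 ^ n1) := by ring
      _ ≤ 3 * (((1 + ε / 3) * 2 ^ n2) * 2 ^ n1) := by gcongr
      _ = 3 * ((1 + ε / 3) * 2 ^ (n1 + n2)) := by rw [pow_add]; ring
  linarith

lemma sSat_lower (ε : ℝ) (hε : 0 < ε) : ∃ n₀ : ℕ, ∀ n ≥ n₀, (3 - ε) * 2 ^ n ≤ (sSat n : ℝ) :=
  SemiSatThree.result.1 ε hε

lemma sSat_tendsto : Tendsto (fun n : ℕ => (sSat n : ℝ) / 2 ^ n) atTop (𝓝 3) := by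
  rw [Metric.tendsto_atTop]
  intro ε hε
  obtain ⟨a, ha⟩ := sSat_upper (ε / 2) (by positivity)
  obtain ⟨b, hb⟩ := sSat_lower (ε / 2) (by positivity)
  refine ⟨max a b, fun n hn => ?_⟩
  have h1 := ha n ((le_max_left _ _).trans hn)
  have h2 := hb n ((le_max_right _ _).trans hn)
  have hp : (0 : ℝ) < 2 ^ n := by positivity
  rw [Real.dist_eq, abs_lt]
  constructor
  · have : 3 - ε / 2 ≤ (sSat n : ℝ) / 2 ^ n := by
      rw [le_div_iff₀ hp]; exact h2
    linarith
  · have : (sSat n : ℝ) / 2 ^ n ≤ 3 + ε / 2 := by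
      rw [div_le_iff₀ hp]; exact h1
    linarith

/-- (1) `s-sat(Q_n, Q_2) / 2 ^ n` tends to `3`. (2) The strict asymptotic separation
`limsup s-sat(Q_n, Q_2) / 2 ^ n < liminf sat(Q_n, Q_2) / 2 ^ n` (upper and lower limits in the
extended reals). (3) Quantitatively, the upper limit is `3` and the lower limit is at least `3.1`. -/
theorem result :
    Tendsto (fun n : ℕ => (sSat n : ℝ) / 2 ^ n) atTop (𝓝 3) ∧
    limsup (fun n : ℕ => (((sSat n : ℝ) / 2 ^ n : ℝ) : EReal)) atTop <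
      liminf (fun n : ℕ => (((satNum n : ℝ) / 2 ^ n : ℝ) : EReal)) atTop ∧
    limsup (fun n : ℕ => (((sSat n : ℝ) / 2 ^ n : ℝ) : EReal)) atTop = ((3 : ℝ) : EReal) ∧
    ((31 / 10 : ℝ) : EReal) ≤
      liminf (fun n : ℕ => (((satNum n : ℝ) / 2 ^ n : ℝ) : EReal)) atTop := by
  have h1 : limsup (fun n : ℕ => (((sSat n : ℝ) / 2 ^ n : ℝ) : EReal)) atTop
      = ((3 : ℝ) : EReal) :=
    ((continuous_coe_real_ereal.tendsto 3).comp sSat_tendsto).limsup_eq
  have h2 : ((31 / 10 : ℝ) : EReal) ≤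
      liminf (fun n : ℕ => (((satNum n : ℝ) / 2 ^ n : ℝ) : EReal)) atTop := by
    apply le_liminf_of_le
    · isBoundedDefault
    · filter_upwards [eventually_ge_atTop (10 ^ 16)] with n hn
      rw [EReal.coe_le_coe_iff, le_div_iff₀ (by positivity)]
      exact Separation.sat_lower n hn
  refine ⟨sSat_tendsto, ?_, h1, h2⟩
  rw [h1]
  refine lt_of_lt_of_le ?_ h2
  rw [EReal.coe_lt_coe_iff]
  norm_num

end Pool.Agent.Results.MP_71830d_co.AsymptoticSeparation
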